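import Mathlib

/-! The ballean of all reflexive locally finite relations on the natural numbers. -/

open Set Cardinal

namespace Pool.Agent.Results.MP_fb12c6_gt.Separate

/-- the three properties of a ballean -/
def IsBallean {X : Type} (𝓔 : Set (Set (X × X))) : Prop :=
  (∀ E ∈ 𝓔, ∀ x, (x, x) ∈ E) ∧
  (∀ E ∈ 𝓔, ∀ F ∈ 𝓔, ∃ D ∈ 𝓔, {p : X × X | ∃ y, (p.1, y) ∈ E ∧ (p.2, y) ∈ F} ⊆ D) ∧
  ⋃₀ 𝓔 = Set.univ

/-- the set `E[A]` -/
def nbhd {X : Type} (E : Set (X × X)) (A : Set X) : Set X := {y | ∃ a ∈ A, (a, y) ∈ E}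

/-- bounded sets -/
def Bdd {X : Type} (𝓔 : Set (Set (X × X))) (B : Set X) : Prop :=
  ∃ E ∈ 𝓔, ∃ x, B ⊆ {y | (x, y) ∈ E}

/-- the entourages of the square -/
def sq {X : Type} (𝓔 : Set (Set (X × X))) : Set (Set ((X × X) × (X × X))) :=
  {D | ∃ E₁ ∈ 𝓔, ∃ E₂ ∈ 𝓔, D = {q | (q.1.1, q.2.1) ∈ E₁ ∧ (q.1.2, q.2.2) ∈ E₂}}

/-- the cardinal cof with an asterisk -/
noncomputable def cofAst {X : Type} (𝓔 : Set (Set (X × X))) : Cardinal :=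
  sInf {c | ∃ 𝓒 ⊆ 𝓔, c = #𝓒 ∧ ∀ E ∈ 𝓔, ∃ C ∈ 𝓒, Bdd (sq 𝓔) (E \ C)}

/-- the cardinal cof with an asterisk, at the set `A` -/
noncomputable def cofAt {X : Type} (𝓔 : Set (Set (X × X))) (A : Set X) : Cardinal :=
  sInf {c | ∃ 𝓒 ⊆ 𝓔, c = #𝓒 ∧ ∀ E ∈ 𝓔, ∃ C ∈ 𝓒, Bdd 𝓔 (nbhd E A \ nbhd C A)}

/-- the cardinal cof with a star -/
noncomputable def cofStar {X : Type} (𝓔 : Set (Set (X × X))) : Cardinal :=
  ⨆ A : Set X, cofAt 𝓔 A

def LF : Set (Set (ℕ × ℕ)) :=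
  {E | (∀ x, (x, x) ∈ E) ∧ (∀ x, {y | (x, y) ∈ E}.Finite) ∧ ∀ y, {x | (x, y) ∈ E}.Finite}

lemma add_mem {S : Set (ℕ × ℕ)} (h1 : ∀ x, {y | (x, y) ∈ S}.Finite)
    (h2 : ∀ y, {x | (x, y) ∈ S}.Finite) : {p : ℕ × ℕ | p.1 = p.2} ∪ S ∈ LF := by
  refine ⟨fun x => Or.inl rfl, fun x => ?_, fun y => ?_⟩
  · apply ((finite_singleton x).union (h1 x)).subset
    rintro y (h | h)
    · exact Or.inl h.symm
    · exact Or.inr h
  · apply ((finite_singleton y).union (h2 y)).subset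
    rintro x (h | h)
    · exact Or.inl h
    · exact Or.inr h

lemma bdd_of_finite {B : Set ℕ} (hB : B.Finite) : Bdd LF B := by
  refine ⟨_, add_mem (S := {p | p.1 = 0 ∧ p.2 ∈ B}) (fun x => hB.subset fun y h => h.2)
    (fun y => (finite_singleton 0).subset fun x h => h.1), 0, fun y hy => Or.inr ⟨rfl, hy⟩⟩

lemma diag_mem : {p : ℕ × ℕ | p.1 = p.2} ∪ ∅ ∈ LF :=
  add_mem (fun _ => by simp) (fun _ => by simp)

lemma ballean : IsBallean LF := by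
  refine ⟨fun E hE => hE.1, fun E hE F hF => ⟨{p | ∃ y, (p.1, y) ∈ E ∧ (p.2, y) ∈ F},
    ⟨fun x => ⟨x, hE.1 x, hF.1 x⟩, fun x => ?_, fun z => ?_⟩, Subset.rfl⟩, ?_⟩
  · apply ((hE.2.1 x).biUnion (fun y _ => hF.2.2 y)).subset
    rintro z ⟨y, h1, h2⟩
    exact mem_biUnion h1 h2
  · apply ((hF.2.1 z).biUnion (fun y _ => hE.2.2 y)).subset
    rintro x ⟨y, h1, h2⟩
    exact mem_biUnion h2 h1
  · apply eq_univ_of_forall
    intro p
    refine ⟨_, add_mem (S := {p}) (fun x => ?_) (fun y => ?_), Or.inr rfl⟩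
    · exact (finite_singleton p.2).subset fun y h => congrArg Prod.snd h
    · exact (finite_singleton p.1).subset fun x h => congrArg Prod.fst h

lemma cofAt_le (A : Set ℕ) : cofAt LF A ≤ 1 := by
  suffices h : ∃ C ∈ LF, ∀ E ∈ LF, Bdd LF (nbhd E A \ nbhd C A) by
    obtain ⟨C, hC, h⟩ := h
    apply csInf_le (OrderBot.bddBelow _)
    exact ⟨{C}, by simpa using hC, by simp, fun E hE => ⟨C, rfl, h E hE⟩⟩
  rcases A.finite_or_infinite with hA | hA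
  · refine ⟨_, diag_mem, fun E hE => bdd_of_finite ?_⟩
    apply (hA.biUnion (fun a _ => hE.2.1 a)).subset
    rintro y ⟨⟨a, ha, h⟩, _⟩
    exact mem_biUnion ha h
  · let e := hA.natEmbedding A
    refine ⟨_, add_mem (S := {p | p.1 = (e p.2 : ℕ)}) (fun x => ?_) (fun y => ?_),
      fun E _ => bdd_of_finite (finite_empty.subset ?_)⟩
    · apply Set.Subsingleton.finite
      intro y hy z hz
      exact e.injective (Subtype.ext (Eq.trans (Eq.symm hy) hz))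
    · exact (finite_singleton (e y : ℕ)).subset fun x h => h
    · rintro y ⟨_, h⟩
      exact h ⟨e y, (e y).2, Or.inr rfl⟩

lemma one_lt : 1 < cofAst LF := by
  have hne : {c | ∃ 𝓒 ⊆ LF, c = #𝓒 ∧ ∀ E ∈ LF, ∃ C ∈ 𝓒, Bdd (sq LF) (E \ C)}.Nonempty :=
    ⟨_, LF, Subset.rfl, rfl, fun E hE => ⟨E, hE, _, ⟨E, hE, E, hE, rfl⟩, (0, 0), by simp⟩⟩
  obtain ⟨𝓒, h1, h2, h3⟩ := csInf_mem hne
  by_contra h
  have h4 : #𝓒 ≤ 1 := h2 ▸ not_lt.mp h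
  rw [Cardinal.le_one_iff_subsingleton, subsingleton_coe] at h4
  obtain ⟨C, hC, -⟩ := h3 _ diag_mem
  have h5 : ∀ x, ∃ y, x < y ∧ (x, y) ∉ C := by
    intro x
    obtain ⟨y, hy, hy'⟩ := ((h1 hC).2.1 x).infinite_compl.exists_gt x
    exact ⟨y, hy', hy⟩
  choose f hf hf' using h5
  obtain ⟨C', hC', _, ⟨E₁, hE₁, E₂, -, rfl⟩, q, hq⟩ := h3 _ (add_mem (S := {p | p.2 = f p.1})
    (fun x => (finite_singleton (f x)).subset fun y h => h)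
    (fun y => (finite_lt_nat y).subset fun x h => by
      have : y = f x := h
      exact this ▸ hf x))
  rw [h4 hC' hC] at hq
  apply infinite_univ (α := ℕ)
  apply (hE₁.2.1 q.1).subset
  intro x _
  exact (hq (a := (x, f x)) ⟨Or.inr rfl, hf' x⟩).1

theorem result : ∃ (X : Type) (𝓔 : Set (Set (X × X))), IsBallean 𝓔 ∧ cofStar 𝓔 < cofAst 𝓔 :=
  ⟨ℕ, LF, ballean, lt_of_le_of_lt (ciSup_le cofAt_le) one_lt⟩

end Pool.Agent.Results.MP_fb12c6_gt.Separate
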